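import Mathlib

set_option autoImplicit false

namespace Pool.Agent.Results.MP_cb51c9_co.GreedyForm

open Finset

/-- `S` contains no nontrivial solution of `p w + q x = p y + q z`. -/
def IsFree (p q : ℕ) (S : Set ℕ) : Prop :=
  ∀ w ∈ S, ∀ x ∈ S, ∀ y ∈ S, ∀ z ∈ S, p * w + q * x = p * y + q * z → w = y ∧ x = z

/-- `g` is the greedy sequence: `g 0 = 0`, and `g (i + 1)` is the least integer `n > g i` such
that `{g 0, ..., g i, n}` is free of `p w + q x = p y + q z`. -/
def IsGreedy (p q : ℕ) (g : ℕ → ℕ) : Prop :=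
  g 0 = 0 ∧ ∀ i, IsLeast {n : ℕ | g i < n ∧ IsFree p q (insert n (g '' Set.Iic i))} (g (i + 1))

/-- The sequence `a i = ⌈(p + (p + q) (k - 1) (a 0 + ... + a (i - 1))) / q⌉`. -/
def base (p q k : ℕ) (i : ℕ) : ℕ :=
  (p + (p + q) * ((k - 1) * ∑ j : Fin i, base p q k j)) ⌈/⌉ q
termination_by i
decreasing_by exact j.2

/-- The finite sums `∑ d i * a i` with digits `0 ≤ d i ≤ k - 1`. -/
def digitSums (p q k : ℕ) : Set ℕ :=
  {m | ∃ (n : ℕ) (d : ℕ → ℕ), (∀ i, d i ≤ k - 1) ∧ m = ∑ i ∈ range n, d i * base p q k i}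

/-- The printed sequence for `(5, 2)`: `a 0 = 0` and `a i = ⌊(5 + 7 (a 0 + ... + a (i - 1))) / 2⌋`
for `i ≥ 1`, that is `0, 2, 9, 41, ...`. -/
def printed : ℕ → ℕ
  | 0 => 0
  | (i + 1) => (5 + 7 * ∑ j : Fin (i + 1), printed j) / 2
decreasing_by exact j.2

/-- Sums with digits at most `D` using the first `i` terms of `b`. -/
def Lev (b : ℕ → ℕ) (D : ℕ) : ℕ → Set ℕ
  | 0 => {0}
  | (i + 1) => {m | ∃ c ≤ D, ∃ m' ∈ Lev b D i, m = c * b i + m'}

/-- The largest element of `Lev b D i`. -/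
def Sig (b : ℕ → ℕ) (D : ℕ) : ℕ → ℕ
  | 0 => 0
  | (i + 1) => D * b i + Sig b D i

lemma lev_le (b : ℕ → ℕ) (D : ℕ) : ∀ i, ∀ m ∈ Lev b D i, m ≤ Sig b D i := by
  intro i
  induction i with
  | zero => intro m hm; simp [Lev] at hm; simp [hm]
  | succ i ih =>
    rintro m ⟨c, hc, m', hm', rfl⟩
    have := ih m' hm'
    have h2 : c * b i ≤ D * b i := Nat.mul_le_mul_right _ hc
    simp only [Sig]
    omega

lemma lev_mono (b : ℕ → ℕ) (D : ℕ) (i : ℕ) (m : ℕ) (hm : m ∈ Lev b D i) :
    m ∈ Lev b D (i + 1) := ⟨0, Nat.zero_le _, m, hm, by simp⟩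

lemma zero_mem_lev (b : ℕ → ℕ) (D : ℕ) : ∀ i, 0 ∈ Lev b D i := by
  intro i
  induction i with
  | zero => simp [Lev]
  | succ i ih => exact lev_mono b D i 0 ih

lemma cover_step (p q r D : ℤ) (b s N : ℤ) (hD : 0 ≤ D) (hr : 0 ≤ r)
    (hp : p = (D + 1) * q + r) (hb : 0 ≤ b)
    (hgap : (q + r) * b ≤ (2 * p + q) * s + 2 * p - 1)
    (hlow : - p * (D * b + s) - (p - 1) ≤ N) :
    ∀ e : ℕ, (e : ℤ) ≤ 2 * D → ∀ δ : ℕ, (δ : ℤ) ≤ D →
      N ≤ (p * (e - D) + q * δ) * b + (p + q) * s + (p - 1) →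
      ∃ e' δ' : ℕ, (e' : ℤ) ≤ 2 * D ∧ (δ' : ℤ) ≤ D ∧
        (p * (e' - D) + q * δ') * b - p * s - (p - 1) ≤ N ∧
        N ≤ (p * (e' - D) + q * δ') * b + (p + q) * s + (p - 1) := by
  intro e
  induction e with
  | zero =>
    intro he δ
    induction δ with
    | zero =>
      intro hδ h
      refine ⟨0, 0, by simpa using he, by simpa using hδ, ?_, h⟩
      push_cast
      nlinarith
    | succ δ ih =>
      intro hδ h
      by_cases hc : (p * (((0 : ℕ) : ℤ) - D) + q * ((δ + 1 : ℕ) : ℤ)) * b - p * s - (p - 1) ≤ N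
      · exact ⟨0, δ + 1, he, hδ, hc, h⟩
      · apply ih (by push_cast at hδ; omega)
        push_cast at hc ⊢
        have : 0 ≤ r * b := by positivity
        nlinarith
  | succ e ihe =>
    intro he δ
    induction δ with
    | zero =>
      intro hδ h
      by_cases hc : (p * (((e + 1 : ℕ) : ℤ) - D) + q * ((0 : ℕ) : ℤ)) * b - p * s - (p - 1) ≤ N
      · exact ⟨e + 1, 0, he, hδ, hc, h⟩
      · apply ihe (by push_cast at he; omega) D.toNat (by omega)
        rw [Int.toNat_of_nonneg hD]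
        push_cast at hc ⊢
        have : (p * ((e : ℤ) - D) + q * D) * b = (p * ((e : ℤ) + 1 - D) + q * 0) * b - (q + r) * b := by
          subst hp; ring
        rw [this]
        nlinarith
    | succ δ ih =>
      intro hδ h
      by_cases hc : (p * (((e + 1 : ℕ) : ℤ) - D) + q * ((δ + 1 : ℕ) : ℤ)) * b - p * s - (p - 1) ≤ N
      · exact ⟨e + 1, δ + 1, he, hδ, hc, h⟩
      · apply ih (by push_cast at hδ; omega)
        push_cast at hc ⊢
        have : 0 ≤ r * b := by positivity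
        nlinarith


section abstract_part

variable (p q r : ℕ) (b : ℕ → ℕ) (D : ℕ)

lemma cover (hp : p = (D + 1) * q + r)
    (hgap : ∀ i, (q + r) * b i + 1 ≤ (2 * p + q) * Sig b D i + 2 * p) :
    ∀ i, ∀ N : ℤ, - p * (Sig b D i : ℤ) - (p - 1) ≤ N →
      N ≤ (p + q) * (Sig b D i : ℤ) + (p - 1) →
      ∃ W ∈ Lev b D i, ∃ Y ∈ Lev b D i, ∃ Z ∈ Lev b D i,
        |N - (p * ((Y : ℤ) - W) + q * Z)| ≤ p - 1 := by
  intro i
  induction i with
  | zero =>
    intro N h1 h2
    refine ⟨0, by simp [Lev], 0, by simp [Lev], 0, by simp [Lev], ?_⟩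
    simp only [Sig] at h1 h2
    push_cast at h1 h2 ⊢
    rw [abs_le]
    constructor <;> nlinarith
  | succ i ih =>
    intro N h1 h2
    have hg := hgap i
    zify at hg
    have hpz : (p : ℤ) = ((D : ℤ) + 1) * q + r := by rw [hp]; push_cast; ring
    simp only [Sig] at h1 h2
    push_cast at h1 h2
    obtain ⟨e, δ, he, hδ, hlo, hhi⟩ := cover_step p q r D (b i) (Sig b D i) N
      (by positivity) (by positivity) hpz (by positivity)
      (by linarith) h1 (2 * D) (by push_cast; omega) D le_rfl (by push_cast; nlinarith)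
    obtain ⟨W, hW, Y, hY, Z, hZ, hWYZ⟩ := ih (N - (p * ((e : ℤ) - D) + q * δ) * b i)
      (by linarith) (by linarith)
    -- write e - D = y - w with 0 ≤ y, w ≤ D
    obtain ⟨y, w, hy, hw, hyw⟩ : ∃ y w : ℕ, y ≤ D ∧ w ≤ D ∧ (e : ℤ) - D = y - w := by
      by_cases h : e ≤ D
      · exact ⟨0, D - e, by omega, by omega, by omega⟩
      · exact ⟨e - D, 0, by omega, by omega, by omega⟩
    refine ⟨w * b i + W, ⟨w, hw, W, hW, rfl⟩, y * b i + Y, ⟨y, hy, Y, hY, rfl⟩,
      δ * b i + Z, ⟨δ, by exact_mod_cast hδ, Z, hZ, rfl⟩, ?_⟩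
    have : N - (p * (((y * b i + Y : ℕ) : ℤ) - ((w * b i + W : ℕ) : ℤ)) + q * ((δ * b i + Z : ℕ) : ℤ))
        = N - (p * ((e : ℤ) - D) + q * δ) * b i - (p * ((Y : ℤ) - W) + q * Z) := by
      rw [hyw]; push_cast; ring
    rw [this]
    exact hWYZ

lemma uniq (hq : 0 < q) (hp : p = (D + 1) * q + r)
    (hlow : ∀ i, p + (p + q) * Sig b D i ≤ q * b i) :
    ∀ i, ∀ W ∈ Lev b D i, ∀ X ∈ Lev b D i, ∀ Y ∈ Lev b D i, ∀ Z ∈ Lev b D i,
      |(p : ℤ) * ((W : ℤ) - Y) + q * ((X : ℤ) - Z)| ≤ p - 1 → W = Y ∧ X = Z := by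
  intro i
  induction i with
  | zero =>
    intro W hW X hX Y hY Z hZ _
    simp only [Lev, Set.mem_singleton_iff] at hW hX hY hZ
    omega
  | succ i ih =>
    rintro _ ⟨w, hw, W, hW, rfl⟩ _ ⟨x, hx, X, hX, rfl⟩ _ ⟨y, hy, Y, hY, rfl⟩ _ ⟨z, hz, Z, hZ, rfl⟩ h
    have hWs := lev_le b D i W hW
    have hXs := lev_le b D i X hX
    have hYs := lev_le b D i Y hY
    have hZs := lev_le b D i Z hZ
    have hl := hlow i
    set s := Sig b D i with hs
    zify at hWs hXs hYs hZs hl hw hx hy hz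
    have hpz : (p : ℤ) = ((D : ℤ) + 1) * q + r := by rw [hp]; push_cast; ring
    have hq' : (0 : ℤ) < q := by exact_mod_cast hq
    have hr' : (0 : ℤ) ≤ r := by positivity
    have hp0 : (0 : ℤ) ≤ p := by positivity
    have hD0 : (0 : ℤ) ≤ D := by positivity
    have hb0 : (0 : ℤ) ≤ b i := by positivity
    have hw0 : (0 : ℤ) ≤ w := by positivity
    have hx0 : (0 : ℤ) ≤ x := by positivity
    have hy0 : (0 : ℤ) ≤ y := by positivity
    have hz0 : (0 : ℤ) ≤ z := by positivity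
    have hW0 : (0 : ℤ) ≤ W := by positivity
    have hX0 : (0 : ℤ) ≤ X := by positivity
    have hY0 : (0 : ℤ) ≤ Y := by positivity
    have hZ0 : (0 : ℤ) ≤ Z := by positivity
    rw [abs_le] at h
    push_cast at h
    -- the lower-order part
    have hR1 : (p : ℤ) * ((W : ℤ) - Y) + q * ((X : ℤ) - Z) ≤ (p + q) * s := by nlinarith
    have hR2 : -((p + q) * (s : ℤ)) ≤ (p : ℤ) * ((W : ℤ) - Y) + q * ((X : ℤ) - Z) := by nlinarith
    have hdec : (p : ℤ) * ((w : ℤ) * b i + W - (y * b i + Y)) + q * ((x : ℤ) * b i + X - (z * b i + Z))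
        = (p * ((w : ℤ) - y) + q * ((x : ℤ) - z)) * b i
          + ((p : ℤ) * ((W : ℤ) - Y) + q * ((X : ℤ) - Z)) := by ring
    rw [hdec] at h
    set c : ℤ := p * ((w : ℤ) - y) + q * ((x : ℤ) - z) with hc
    set R : ℤ := (p : ℤ) * ((W : ℤ) - Y) + q * ((X : ℤ) - Z) with hR
    -- c is small in absolute value
    have hc1 : ¬ (q : ℤ) ≤ c := by
      intro hqc
      have : (q : ℤ) * b i ≤ c * b i := mul_le_mul_of_nonneg_right hqc hb0
      linarith [h.2]
    have hc2 : ¬ c ≤ -(q : ℤ) := by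
      intro hqc
      have : c * b i ≤ (-(q : ℤ)) * b i := mul_le_mul_of_nonneg_right hqc hb0
      linarith [h.1]
    have hqD : (q : ℤ) * ((x : ℤ) - z) ≤ q * D := by
      apply mul_le_mul_of_nonneg_left _ hq'.le; linarith
    have hqD2 : -((q : ℤ) * D) ≤ (q : ℤ) * ((x : ℤ) - z) := by
      have : (q : ℤ) * (-D) ≤ (q : ℤ) * ((x : ℤ) - z) := by
        apply mul_le_mul_of_nonneg_left _ hq'.le; linarith
      linarith
    have hwy : (w : ℤ) = y := by
      rcases lt_trichotomy (w : ℤ) y with hlt | heq | hgt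
      · exfalso
        apply hc2
        have : (p : ℤ) * ((w : ℤ) - y) ≤ p * (-1) := by
          apply mul_le_mul_of_nonneg_left _ hp0; omega
        rw [hc]; linarith
      · exact heq
      · exfalso
        apply hc1
        have : (p : ℤ) * 1 ≤ p * ((w : ℤ) - y) := by
          apply mul_le_mul_of_nonneg_left _ hp0; omega
        rw [hc]; linarith
    have hxz : (x : ℤ) = z := by
      rcases lt_trichotomy (x : ℤ) z with hlt | heq | hgt
      · exfalso
        apply hc2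
        have : (q : ℤ) * ((x : ℤ) - z) ≤ q * (-1) := by
          apply mul_le_mul_of_nonneg_left _ hq'.le; omega
        rw [hc, hwy]; linarith
      · exact heq
      · exfalso
        apply hc1
        have : (q : ℤ) * 1 ≤ q * ((x : ℤ) - z) := by
          apply mul_le_mul_of_nonneg_left _ hq'.le; omega
        rw [hc, hwy]; linarith
    have hc0 : c = 0 := by rw [hc, hwy, hxz]; ring
    rw [hc0] at h
    obtain ⟨h1, h2⟩ := ih W hW X hX Y hY Z hZ (by rw [abs_le]; constructor <;> linarith [h.1, h.2])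
    have hwy' : w = y := by exact_mod_cast hwy
    have hxz' : x = z := by exact_mod_cast hxz
    subst hwy' hxz' h1 h2
    exact ⟨rfl, rfl⟩

lemma sig_lt (hlow : ∀ i, p + (p + q) * Sig b D i ≤ q * b i) (hp : 0 < p) (i : ℕ) :
    Sig b D i < b i := by
  have h := hlow i
  by_contra hcon
  push Not at hcon
  have : q * b i ≤ q * Sig b D i := Nat.mul_le_mul_left _ hcon
  nlinarith

lemma solve (hq : 0 < q) (hp : p = (D + 1) * q + r)
    (hgap : ∀ i, (q + r) * b i + 1 ≤ (2 * p + q) * Sig b D i + 2 * p)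
    (hlow : ∀ i, p + (p + q) * Sig b D i ≤ q * b i)
    (hup : ∀ i, q * b i + 1 ≤ p + (p + q) * Sig b D i + q) :
    ∀ i, ∀ m, m < b i → m ∉ Lev b D i →
      ∃ W ∈ Lev b D i, ∃ Y ∈ Lev b D i, ∃ Z ∈ Lev b D i, W < m ∧ Y < m ∧ Z < m ∧
        |(q : ℤ) * m - (p * ((Y : ℤ) - W) + q * Z)| ≤ p - 1 := by
  have hp0 : 0 < p := by rw [hp]; positivity
  have hbig : ∀ i, ∀ m, m < b i → Sig b D i < m →
      ∃ W ∈ Lev b D i, ∃ Y ∈ Lev b D i, ∃ Z ∈ Lev b D i, W < m ∧ Y < m ∧ Z < m ∧
        |(q : ℤ) * m - (p * ((Y : ℤ) - W) + q * Z)| ≤ p - 1 := by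
    intro i m hmb hm
    have hu := hup i
    zify at hu hmb
    obtain ⟨W, hW, Y, hY, Z, hZ, h⟩ := cover p q r b D hp hgap i (q * m) (by
      have : (0 : ℤ) ≤ q * m := by positivity
      have h2 : (0 : ℤ) ≤ p * (Sig b D i : ℤ) := by positivity
      have h3 : (1 : ℤ) ≤ p := by exact_mod_cast hp0
      linarith) (by
      have : (q : ℤ) * (m + 1) ≤ q * b i := by
        apply mul_le_mul_of_nonneg_left _ (by positivity); omega
      linarith)
    exact ⟨W, hW, Y, hY, Z, hZ, lt_of_le_of_lt (lev_le b D i W hW) hm,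
      lt_of_le_of_lt (lev_le b D i Y hY) hm, lt_of_le_of_lt (lev_le b D i Z hZ) hm, h⟩
  intro i
  induction i with
  | zero =>
    intro m hmb hm
    apply hbig 0 m hmb
    simp only [Lev, Set.mem_singleton_iff] at hm
    simp only [Sig]
    omega
  | succ i ih =>
    intro m hmb hm
    by_cases hms : Sig b D (i + 1) < m
    · exact hbig (i + 1) m hmb hms
    · push Not at hms
      simp only [Sig] at hms
      have hsb := sig_lt p q b D hlow hp0 i
      have hbpos : 0 < b i := by omega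
      have hmlt : m < (D + 1) * b i := by nlinarith
      have hd : m / b i ≤ D := by
        have : m / b i < D + 1 := (Nat.div_lt_iff_lt_mul hbpos).mpr hmlt
        omega
      have hm' : m % b i ∉ Lev b D i := by
        intro hmem
        apply hm
        exact ⟨m / b i, hd, m % b i, hmem, by rw [mul_comm]; exact (Nat.div_add_mod m (b i)).symm⟩
      obtain ⟨W, hW, Y, hY, Z, hZ, hWm, hYm, hZm, h⟩ := ih (m % b i) (Nat.mod_lt _ hbpos) hm'
      have hmm : m = (m / b i) * b i + m % b i := by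
        rw [mul_comm]; exact (Nat.div_add_mod m (b i)).symm
      have hle : m % b i ≤ m := Nat.mod_le _ _
      refine ⟨W, lev_mono b D i W hW, Y, lev_mono b D i Y hY, (m / b i) * b i + Z,
        ⟨m / b i, hd, Z, hZ, rfl⟩, by omega, by omega, by omega, ?_⟩
      have : (q : ℤ) * m - (p * ((Y : ℤ) - W) + q * (((m / b i) * b i + Z : ℕ) : ℤ))
          = (q : ℤ) * ((m % b i : ℕ) : ℤ) - (p * ((Y : ℤ) - W) + q * Z) := by
        have h3 : (m : ℤ) = ((m / b i : ℕ) : ℤ) * (b i : ℤ) + ((m % b i : ℕ) : ℤ) := by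
          exact_mod_cast hmm
        have h4 : (((m / b i) * b i + Z : ℕ) : ℤ) = ((m / b i : ℕ) : ℤ) * (b i : ℤ) + (Z : ℤ) := by
          push_cast; ring
        rw [h4]
        nth_rewrite 1 [h3]
        ring
      rw [this]
      exact h

lemma lev_mono' (i j : ℕ) (hij : i ≤ j) (m : ℕ) (hm : m ∈ Lev b D i) : m ∈ Lev b D j := by
  induction j, hij using Nat.le_induction with
  | base => exact hm
  | succ j _ ih => exact lev_mono b D j m ih

end abstract_part


section greedy_part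

lemma isFree_mono (p q : ℕ) {S T : Set ℕ} (h : S ⊆ T) (hT : IsFree p q T) : IsFree p q S :=
  fun w hw x hx y hy z hz e => hT w (h hw) x (h hx) y (h hy) z (h hz) e

lemma greedy_unique (p q : ℕ) (g g' : ℕ → ℕ) (hg : IsGreedy p q g) (hg' : IsGreedy p q g') :
    g = g' := by
  have key : ∀ n, ∀ i ≤ n, g i = g' i := by
    intro n
    induction n with
    | zero => intro i hi; have : i = 0 := by omega
              subst this; rw [hg.1, hg'.1]
    | succ n ih =>
      intro i hi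
      by_cases h : i ≤ n
      · exact ih i h
      · have : i = n + 1 := by omega
        subst this
        have himg : g '' Set.Iic n = g' '' Set.Iic n :=
          Set.image_congr (fun j hj => ih j hj)
        have h1 := hg.2 n
        have h2 := hg'.2 n
        rw [himg, ih n le_rfl] at h1
        exact h1.unique h2
  funext i
  exact key i i le_rfl

lemma greedy_char (p q : ℕ) (G : Set ℕ) (h0 : 0 ∈ G) (hfree : IsFree p q G)
    (hblock : ∀ n, n ∉ G → ¬ IsFree p q (insert n (G ∩ Set.Iio n))) (hinf : G.Infinite) :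
    (∃ g, IsGreedy p q g) ∧ ∀ g, IsGreedy p q g → Set.range g = G := by
  classical
  have hinf' : {n | n ∈ G}.Infinite := hinf
  have hmono : StrictMono (Nat.nth (fun n => n ∈ G)) := Nat.nth_strictMono hinf'
  have hrange : Set.range (Nat.nth (fun n => n ∈ G)) = G := Nat.range_nth_of_infinite hinf'
  set g₀ := Nat.nth (fun n => n ∈ G) with hg₀
  have hmem : ∀ i, g₀ i ∈ G := fun i => hrange ▸ Set.mem_range_self i
  have himg : ∀ i, g₀ '' Set.Iic i = G ∩ Set.Iic (g₀ i) := by
    intro i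
    ext n
    constructor
    · rintro ⟨j, hj, rfl⟩
      exact ⟨hmem j, hmono.monotone hj⟩
    · rintro ⟨hn, hle⟩
      rw [← hrange] at hn
      obtain ⟨j, rfl⟩ := hn
      exact ⟨j, hmono.le_iff_le.mp hle, rfl⟩
  have hg : IsGreedy p q g₀ := by
    constructor
    · have : (0 : ℕ) ∈ Set.range g₀ := by rw [hrange]; exact h0
      obtain ⟨j, hj⟩ := this
      have : g₀ 0 ≤ g₀ j := hmono.monotone (Nat.zero_le j)
      omega
    · intro i
      constructor
      · refine ⟨hmono (Nat.lt_succ_self i), isFree_mono p q ?_ hfree⟩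
        rw [himg]
        rintro n (rfl | hn)
        · exact hmem (i + 1)
        · exact hn.1
      · rintro n ⟨hn1, hn2⟩
        by_contra hlt
        push Not at hlt
        have hnG : n ∉ G := by
          intro hnG
          rw [← hrange] at hnG
          obtain ⟨j, rfl⟩ := hnG
          have h1 := hmono.lt_iff_lt.mp hn1
          have h2 := hmono.lt_iff_lt.mp hlt
          omega
        apply hblock n hnG
        have : G ∩ Set.Iio n = g₀ '' Set.Iic i := by
          rw [himg]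
          ext m
          constructor
          · rintro ⟨hm, hmn⟩
            refine ⟨hm, ?_⟩
            rw [← hrange] at hm
            obtain ⟨j, rfl⟩ := hm
            simp only [Set.mem_Iio] at hmn
            have h2 := hmono.lt_iff_lt.mp (lt_trans hmn hlt)
            exact hmono.monotone (by omega)
          · rintro ⟨hm, hmn⟩
            exact ⟨hm, lt_of_le_of_lt hmn hn1⟩
        rw [this]
        exact hn2
  exact ⟨⟨g₀, hg⟩, fun g hg' => by rw [greedy_unique p q g g₀ hg' hg]; exact hrange⟩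

end greedy_part

section blocks

/-- Block set. -/
def Blk (p : ℕ) (A : Set ℕ) : Set ℕ := {n | ∃ x ∈ A, ∃ y < p, n = p * x + y}

lemma blk_free (p q : ℕ) (hp : 0 < p) (hcop : Nat.Coprime p q) (A : Set ℕ)
    (hA : ∀ W ∈ A, ∀ X ∈ A, ∀ Y ∈ A, ∀ Z ∈ A,
      |(p : ℤ) * ((W : ℤ) - Y) + q * ((X : ℤ) - Z)| ≤ p - 1 → W = Y ∧ X = Z) :
    IsFree p q (Blk p A) := by
  rintro _ ⟨w, hw, w', hw', rfl⟩ _ ⟨x, hx, x', hx', rfl⟩ _ ⟨y, hy, y', hy', rfl⟩
    _ ⟨z, hz, z', hz', rfl⟩ h
  have hmod : x' = z' := by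
    have h1 : (p * (p * w + w') + q * (p * x + x')) % p = (p * (p * y + y') + q * (p * z + z')) % p := by
      rw [h]
    have h2 : q * x' ≡ q * z' [MOD p] := by
      have e1 : p * (p * w + w') + q * (p * x + x') = q * x' + p * (p * w + w' + q * x) := by ring
      have e2 : p * (p * y + y') + q * (p * z + z') = q * z' + p * (p * y + y' + q * z) := by ring
      rw [e1, e2, Nat.add_mul_mod_self_left, Nat.add_mul_mod_self_left] at h1
      exact h1
    have h3 : x' ≡ z' [MOD p] := Nat.ModEq.cancel_left_of_coprime hcop h2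
    exact Nat.ModEq.eq_of_lt_of_lt h3 hx' hz'
  subst hmod
  have h4 : (p : ℤ) * ((w : ℤ) - y) + q * ((x : ℤ) - z) = (y' : ℤ) - w' := by
    have h5 : (p : ℤ) * ((p : ℤ) * w + w') + q * (p * x + x') = p * (p * y + y') + q * (p * z + x') := by
      exact_mod_cast h
    have h6 : (p : ℤ) * ((p : ℤ) * ((w : ℤ) - y) + q * ((x : ℤ) - z)) = p * ((y' : ℤ) - w') := by
      linarith
    exact mul_left_cancel₀ (by exact_mod_cast hp.ne') h6
  obtain ⟨h7, h8⟩ := hA w hw x hx y hy z hz (by rw [h4, abs_le]; constructor <;> omega)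
  subst h7 h8
  have : (y' : ℤ) - w' = 0 := by rw [← h4]; ring
  constructor
  · congr 1; omega
  · rfl

lemma blk_block (p q : ℕ) (hp : 0 < p) (A : Set ℕ)
    (hA : ∀ m, m ∉ A → ∃ W ∈ A, ∃ Y ∈ A, ∃ Z ∈ A, W < m ∧ Y < m ∧ Z < m ∧
        |(q : ℤ) * m - (p * ((Y : ℤ) - W) + q * Z)| ≤ p - 1) :
    ∀ n, n ∉ Blk p A → ¬ IsFree p q (insert n (Blk p A ∩ Set.Iio n)) := by
  intro n hn hfree
  have hdm : p * (n / p) + n % p = n := Nat.div_add_mod n p
  have hc : n % p < p := Nat.mod_lt _ hp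
  have hm : n / p ∉ A := by
    intro hmem
    exact hn ⟨n / p, hmem, n % p, hc, hdm.symm⟩
  obtain ⟨W, hW, Y, hY, Z, hZ, hWm, hYm, hZm, h⟩ := hA _ hm
  set m := n / p with hmdef
  set c := n % p with hcdef
  -- e = b - a
  obtain ⟨a, b', ha, hb, hab⟩ : ∃ a b' : ℕ, a < p ∧ b' < p ∧
      (q : ℤ) * m - (p * ((Y : ℤ) - W) + q * Z) = b' - a := by
    rw [abs_le] at h
    by_cases h0 : 0 ≤ (q : ℤ) * m - (p * ((Y : ℤ) - W) + q * Z)
    · exact ⟨0, ((q : ℤ) * m - (p * ((Y : ℤ) - W) + q * Z)).toNat, hp, by omega, by omega⟩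
    · exact ⟨(-((q : ℤ) * m - (p * ((Y : ℤ) - W) + q * Z))).toNat, 0, by omega, hp, by omega⟩
  have hlt : ∀ T a : ℕ, T < m → a < p → p * T + a < n := by
    intro T a hT ha
    have : p * (T + 1) ≤ p * m := Nat.mul_le_mul_left _ hT
    have h2 : p * (T + 1) = p * T + p := by ring
    omega
  have hw' : p * W + a ∈ insert n (Blk p A ∩ Set.Iio n) :=
    Or.inr ⟨⟨W, hW, a, ha, rfl⟩, hlt W a hWm ha⟩
  have hy' : p * Y + b' ∈ insert n (Blk p A ∩ Set.Iio n) :=
    Or.inr ⟨⟨Y, hY, b', hb, rfl⟩, hlt Y b' hYm hb⟩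
  have hz' : p * Z + c ∈ insert n (Blk p A ∩ Set.Iio n) :=
    Or.inr ⟨⟨Z, hZ, c, hc, rfl⟩, hlt Z c hZm hc⟩
  have hx' : n ∈ insert n (Blk p A ∩ Set.Iio n) := Or.inl rfl
  have heq : p * (p * W + a) + q * n = p * (p * Y + b') + q * (p * Z + c) := by
    have h1 : (n : ℤ) = p * m + c := by exact_mod_cast hdm.symm
    zify
    rw [h1]
    have : (p : ℤ) * (q * m) = p * ((p * ((Y : ℤ) - W) + q * Z) + (b' - a)) := by
      congr 1; linarith
    linarith
  have := (hfree _ hw' _ hx' _ hy' _ hz' heq).2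
  have h3 := hlt Z c hZm hc
  omega

end blocks

section final

lemma base_eq (p q k i : ℕ) :
    base p q k i = (p + (p + q) * ((k - 1) * ∑ j ∈ range i, base p q k j)) ⌈/⌉ q := by
  rw [base, Finset.sum_range]

lemma sig_eq (b : ℕ → ℕ) (D i : ℕ) : Sig b D i = D * ∑ j ∈ range i, b j := by
  induction i with
  | zero => simp [Sig]
  | succ i ih => rw [Sig, ih, Finset.sum_range_succ]; ring

lemma mem_lev_iff (b : ℕ → ℕ) (D : ℕ) : ∀ i m, m ∈ Lev b D i ↔
    ∃ d : ℕ → ℕ, (∀ i, d i ≤ D) ∧ m = ∑ j ∈ range i, d j * b j := by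
  intro i
  induction i with
  | zero =>
    intro m
    simp only [Lev, Set.mem_singleton_iff, Finset.range_zero, Finset.sum_empty]
    exact ⟨fun h => ⟨fun _ => 0, fun _ => Nat.zero_le _, h⟩, fun ⟨_, _, h⟩ => h⟩
  | succ i ih =>
    intro m
    constructor
    · rintro ⟨c, hc, m', hm', rfl⟩
      obtain ⟨d, hd, rfl⟩ := (ih m').mp hm'
      refine ⟨Function.update d i c, ?_, ?_⟩
      · intro j
        by_cases hj : j = i
        · subst hj; simp [hc]
        · simp [Function.update_of_ne hj, hd j]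
      · rw [Finset.sum_range_succ, Function.update_self, add_comm]
        congr 1
        apply Finset.sum_congr rfl
        intro j hj
        rw [Function.update_of_ne (by have := Finset.mem_range.mp hj; omega)]
    · rintro ⟨d, hd, rfl⟩
      refine ⟨d i, hd i, ∑ j ∈ range i, d j * b j, (ih _).mpr ⟨d, hd, rfl⟩, ?_⟩
      rw [Finset.sum_range_succ, add_comm]

lemma mem_digitSums_iff (p q k m : ℕ) :
    m ∈ digitSums p q k ↔ ∃ i, m ∈ Lev (base p q k) (k - 1) i := by
  constructor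
  · rintro ⟨n, d, hd, h⟩
    exact ⟨n, (mem_lev_iff _ _ _ _).mpr ⟨d, hd, h⟩⟩
  · rintro ⟨n, h⟩
    obtain ⟨d, hd, h⟩ := (mem_lev_iff _ _ _ _).mp h
    exact ⟨n, d, hd, h⟩

lemma gap_aux (p q r k s c : ℤ) (hq : 0 < q) (hrq : r < q) (hr : 0 ≤ r) (hpk : q * k + r = p)
    (hreg : k ^ 2 * p ^ 2 + q ^ 2 ≤ k ^ 3 * q * (p + q) + r) (hs : k ^ 2 ≤ s + 1)
    (hui : q * c + 1 ≤ p + (p + q) * s + q) :
    (q + r) * c + 1 ≤ (2 * p + q) * s + 2 * p := by
  have hr' : r = p - q * k := by linarith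
  have e1 : p * q - r * (p + q) = q * k * (p + q) - p ^ 2 := by rw [hr']; ring
  have e2 : q ^ 2 - r ≤ k ^ 2 * (p * q - r * (p + q)) := by rw [e1]; linarith
  have e3 : 0 < q ^ 2 - r := by nlinarith
  have hDpos : (0 : ℤ) < p * q - r * (p + q) := by
    by_contra hcon
    push Not at hcon
    have : k ^ 2 * (p * q - r * (p + q)) ≤ 0 :=
      mul_nonpos_of_nonneg_of_nonpos (by positivity) hcon
    linarith
  have h1 : k ^ 2 * (p * q - r * (p + q)) ≤ (s + 1) * (p * q - r * (p + q)) :=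
    mul_le_mul_of_nonneg_right hs hDpos.le
  have h2 : (q + r) * (q * c + 1) ≤ (q + r) * (p + (p + q) * s + q) :=
    mul_le_mul_of_nonneg_left hui (by linarith)
  have h3 : q * ((q + r) * c + 1) ≤ q * ((2 * p + q) * s + 2 * p) := by
    nlinarith [h1, h2, e2]
  exact le_of_mul_le_mul_left h3 hq

/-- The general theorem, see `result`. -/
theorem main (p q : ℕ) (hcop : Nat.Coprime p q) (hq : 0 < q) (hpq : 2 * q ≤ p)
    (hreg : (p / q) ^ 2 * p ^ 2 + q ^ 2 ≤ (p / q) ^ 3 * q * (p + q) + p % q) :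
    (∃ g, IsGreedy p q g) ∧ ∀ g, IsGreedy p q g →
      Set.range g = {n | ∃ x ∈ digitSums p q (p / q), ∃ y < p, n = p * x + y} := by
  set k := p / q with hk
  set r := p % q with hr
  have hpk : q * k + r = p := Nat.div_add_mod p q
  have hrq : r < q := Nat.mod_lt _ hq
  have hk2 : 2 ≤ k := by
    rw [hk]; exact (Nat.le_div_iff_mul_le hq).mpr hpq
  obtain ⟨D, hD⟩ : ∃ D, k = D + 1 := ⟨k - 1, by omega⟩
  have hD1 : 1 ≤ D := by omega
  have hkD : k - 1 = D := by omega
  have hp : p = (D + 1) * q + r := by rw [← hpk, hD]; ring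
  have hp0 : 0 < p := by omega
  set b := base p q k with hb
  have hbi : ∀ i, b i = (p + (p + q) * Sig b D i) ⌈/⌉ q := by
    intro i
    rw [hb, base_eq, sig_eq, hkD]
  have hlow : ∀ i, p + (p + q) * Sig b D i ≤ q * b i := by
    intro i
    have := le_smul_ceilDiv hq (b := p + (p + q) * Sig b D i)
    rw [← hbi i] at this
    simpa using this
  have hup : ∀ i, q * b i + 1 ≤ p + (p + q) * Sig b D i + q := by
    intro i
    have h1 : b i = (p + (p + q) * Sig b D i + q - 1) / q := by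
      rw [hbi i, Nat.ceilDiv_eq_add_pred_div]
    have h2 : q * b i ≤ p + (p + q) * Sig b D i + q - 1 := by
      rw [h1]; exact Nat.mul_div_le _ _
    omega
  have hgap : ∀ i, (q + r) * b i + 1 ≤ (2 * p + q) * Sig b D i + 2 * p := by
    have hb0l := hlow 0
    have hb0u := hup 0
    simp only [Sig, mul_zero, add_zero] at hb0l hb0u
    rcases Nat.eq_zero_or_pos r with hr0 | hr0
    · -- then q = 1
      have hq1 : q = 1 := by
        have : q ∣ p := ⟨k, by rw [← hpk, hr0]; simp⟩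
        exact Nat.Coprime.eq_one_of_dvd hcop.symm this
      intro i
      have h1 := hup i
      rw [hr0, hq1] at *
      nlinarith
    · intro i
      rcases Nat.eq_zero_or_pos i with hi | hi
      · subst hi
        simp only [Sig, mul_zero, zero_add]
        -- b 0 ≤ k + 1
        have hb0 : b 0 ≤ k + 1 := by
          by_contra hcon
          push Not at hcon
          have : q * (k + 2) ≤ q * b 0 := Nat.mul_le_mul_left _ hcon
          nlinarith
        have : (q + r) * b 0 ≤ (q + r) * (k + 1) := Nat.mul_le_mul_left _ hb0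
        have h5 : D * r ≤ D * (q - 1) := Nat.mul_le_mul_left _ (by omega)
        have h6 : D * (q - 1) + D = D * q := by
          obtain ⟨q', rfl⟩ : ∃ q', q = q' + 1 := ⟨q - 1, by omega⟩
          simp only [Nat.add_sub_cancel]; ring
        rw [hD] at this
        rw [hp]
        nlinarith
      · -- s + 1 ≥ k ^ 2
        have hb0 : k + 1 ≤ b 0 := by
          by_contra hcon
          push Not at hcon
          have : q * b 0 ≤ q * k := Nat.mul_le_mul_left _ (by omega)
          omega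
        have hs : ∀ j, 1 ≤ j → k ^ 2 ≤ Sig b D j + 1 := by
          intro j hj
          induction j, hj using Nat.le_induction with
          | base =>
            simp only [Sig, add_zero]
            have : D * (k + 1) ≤ D * b 0 := Nat.mul_le_mul_left _ hb0
            rw [hD] at this ⊢
            nlinarith
          | succ j _ ih => simp only [Sig]; omega
        have hsi := hs i hi
        have hui := hup i
        have := gap_aux p q r k (Sig b D i) (b i) (by exact_mod_cast hq) (by exact_mod_cast hrq)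
          (by positivity) (by exact_mod_cast hpk) (by exact_mod_cast hreg) (by exact_mod_cast hsi)
          (by exact_mod_cast hui)
        exact_mod_cast this
  have hsig : ∀ i, i ≤ Sig b D i := by
    intro i
    induction i with
    | zero => simp
    | succ i ih =>
      have h1 := sig_lt p q b D hlow hp0 i
      have h2 : b i ≤ D * b i := Nat.le_mul_of_pos_left _ (by omega)
      simp only [Sig]
      omega
  have hset : {n | ∃ x ∈ digitSums p q k, ∃ y < p, n = p * x + y} = Blk p (digitSums p q k) := rfl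
  rw [hset]
  apply greedy_char
  · exact ⟨0, (mem_digitSums_iff _ _ _ _).mpr ⟨0, by simp [Lev]⟩, 0, hp0, by simp⟩
  · apply blk_free p q hp0 hcop
    intro W hW X hX Y hY Z hZ h
    obtain ⟨i1, h1⟩ := (mem_digitSums_iff _ _ _ _).mp hW
    obtain ⟨i2, h2⟩ := (mem_digitSums_iff _ _ _ _).mp hX
    obtain ⟨i3, h3⟩ := (mem_digitSums_iff _ _ _ _).mp hY
    obtain ⟨i4, h4⟩ := (mem_digitSums_iff _ _ _ _).mp hZ
    rw [hkD] at h1 h2 h3 h4
    exact uniq p q r b D hq hp hlow (i1 + i2 + i3 + i4) W (lev_mono' b D _ _ (by omega) _ h1)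
      X (lev_mono' b D _ _ (by omega) _ h2) Y (lev_mono' b D _ _ (by omega) _ h3)
      Z (lev_mono' b D _ _ (by omega) _ h4) h
  · apply blk_block p q hp0
    intro m hm
    have hlt : m < b m := lt_of_le_of_lt (hsig m) (sig_lt p q b D hlow hp0 m)
    have hmL : m ∉ Lev b D m := by
      intro hmem
      exact hm ((mem_digitSums_iff _ _ _ _).mpr ⟨m, by rw [hkD]; exact hmem⟩)
    obtain ⟨W, hW, Y, hY, Z, hZ, h⟩ := solve p q r b D hq hp hgap hlow hup m m hlt hmL
    exact ⟨W, (mem_digitSums_iff _ _ _ _).mpr ⟨m, by rw [hkD]; exact hW⟩,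
      Y, (mem_digitSums_iff _ _ _ _).mpr ⟨m, by rw [hkD]; exact hY⟩,
      Z, (mem_digitSums_iff _ _ _ _).mpr ⟨m, by rw [hkD]; exact hZ⟩, h⟩
  · -- infinite
    apply Set.infinite_of_forall_exists_gt
    intro n
    refine ⟨p * Sig b D (n + 1), ⟨Sig b D (n + 1), ?_, 0, hp0, by simp⟩, ?_⟩
    · rw [mem_digitSums_iff, hkD]
      refine ⟨n + 1, ?_⟩
      have : ∀ i, Sig b D i ∈ Lev b D i := by
        intro i
        induction i with
        | zero => simp [Lev, Sig]
        | succ i ih => exact ⟨D, le_rfl, _, ih, rfl⟩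
      exact this _
    · have h1 := hsig (n + 1)
      have h2 : Sig b D (n + 1) ≤ p * Sig b D (n + 1) := Nat.le_mul_of_pos_left _ hp0
      omega

/-- **Main theorem.** (1) Let `p, q` be coprime, `2 q ≤ p`, `k = ⌊p / q⌋`, `r = p - k q`, and
`k ^ 2 p ^ 2 + q ^ 2 ≤ k ^ 3 q (p + q) + r`.  The greedy set for `p w + q x = p y + q z` is
`{p x + y : x ∈ A, 0 ≤ y < p}`, where `A` is the set of all finite sums `∑ d i * a i` with
digits `0 ≤ d i ≤ k - 1`.  For `p = 5`, `q = 2` one has `k = 2`, `r = 1` (`104 ≤ 113`), the digits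
are `0, 1`, and `a i = ⌈(5 + 7 (a 0 + ... + a (i - 1))) / 2⌉ = 3, 13, 59, ...`.
(2) For `p = 5`, `q = 2` the printed formula, with `⌊ ⌋` and `a 0 = 0`, is not correct: the number
`10` is in `{5 x + y : x ∈ A, 0 ≤ y ≤ 4}` for the printed `A` but not in the greedy set. -/
theorem result :
    (∀ p q : ℕ, Nat.Coprime p q → 0 < q → 2 * q ≤ p →
      (p / q) ^ 2 * p ^ 2 + q ^ 2 ≤ (p / q) ^ 3 * q * (p + q) + p % q →
      (∃ g, IsGreedy p q g) ∧ ∀ g, IsGreedy p q g →
        Set.range g = {n | ∃ x ∈ digitSums p q (p / q), ∃ y < p, n = p * x + y}) ∧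
    (∀ g, IsGreedy 5 2 g → 10 ∉ Set.range g ∧
      10 ∈ {n | ∃ F : Finset ℕ, ∃ y ≤ 4, n = 5 * (∑ i ∈ F, printed i) + y}) := by
  refine ⟨fun p q h1 h2 h3 h4 => main p q h1 h2 h3 h4, fun g hg => ⟨?_, ?_⟩⟩
  · have h := (main 5 2 (by decide) (by norm_num) (by norm_num) (by norm_num)).2 g hg
    rw [h]
    rintro ⟨x, hx, y, hy, hxy⟩
    have hx2 : x = 2 := by omega
    subst hx2
    obtain ⟨n, d, hd, hs⟩ := hx
    have hb : ∀ i, 3 ≤ base 5 2 (5 / 2) i := by
      intro i
      rw [base]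
      rw [Nat.ceilDiv_eq_add_pred_div]
      omega
    by_cases h0 : ∃ i ∈ range n, d i ≠ 0
    · obtain ⟨i, hi, hdi⟩ := h0
      have h1 : d i * base 5 2 (5 / 2) i ≤ ∑ i ∈ range n, d i * base 5 2 (5 / 2) i :=
        Finset.single_le_sum (f := fun i => d i * base 5 2 (5 / 2) i)
          (fun _ _ => Nat.zero_le _) hi
      have h2 : base 5 2 (5 / 2) i ≤ d i * base 5 2 (5 / 2) i :=
        Nat.le_mul_of_pos_left _ (Nat.pos_of_ne_zero hdi)
      have h3 := hb i
      omega
    · push Not at h0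
      have : ∑ i ∈ range n, d i * base 5 2 (5 / 2) i = 0 :=
        Finset.sum_eq_zero fun i hi => by rw [h0 i hi]; simp
      omega
  · refine ⟨{1}, 0, by norm_num, ?_⟩
    rw [Finset.sum_singleton, printed]
    simp [printed]

end final

end Pool.Agent.Results.MP_cb51c9_co.GreedyForm
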